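import Mathlib
import Pool.Agent.H461R2.PD.Comb

set_option autoImplicit false

/-!
# Goldbach or prime tuples: the combinatorial part
-/

namespace Pool.Agent.V11161.GT

open Finset Filter Topology
open Pool.Agent.H461R2.PD (Clq cnt density blowup card_noninj)

/-- the tuples with one prescribed entry -/
theorem card_fix {W : Type} [Fintype W] [DecidableEq W] {a : ℕ} (i : Fin a) (u : W) :
    (univ.filter fun y : Fin a → W => y i = u).card = Fintype.card W ^ (a - 1) := by
  have h := Fintype.card_filter_piFinset_const_eq_of_mem (s := (univ : Finset W)) i (mem_univ u)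
  rw [Fintype.piFinset_univ, Fintype.card_fin, card_univ] at h
  exact h

open Classical in
/-- the pairs of tuples with a prescribed relation between two entries -/
theorem card_rel {W : Type} [Fintype W] [DecidableEq W] {a : ℕ} (i j : Fin a) (G : W → W → Prop) :
    (univ.filter fun u : (Fin a → W) × (Fin a → W) => G (u.1 i) (u.2 j)).card =
      (univ.filter fun u : W × W => G u.1 u.2).card * Fintype.card W ^ (2 * (a - 1)) := by
  have h := card_eq_sum_card_fiberwise (s := univ.filter fun u : (Fin a → W) × (Fin a → W) =>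
    G (u.1 i) (u.2 j)) (t := univ.filter fun u : W × W => G u.1 u.2)
    (f := fun u => (u.1 i, u.2 j)) (by
      intro u hu
      have h1 := (mem_filter.1 (mem_coe.1 hu)).2
      exact mem_coe.2 (mem_filter.2 ⟨mem_univ _, h1⟩))
  rw [h, sum_const_nat (m := Fintype.card W ^ (2 * (a - 1)))]
  intro w hw
  have hG := (mem_filter.1 hw).2
  have e : ((univ.filter fun u : (Fin a → W) × (Fin a → W) => G (u.1 i) (u.2 j)).filter
      fun u => (u.1 i, u.2 j) = w) =
      (univ.filter fun y : Fin a → W => y i = w.1) ×ˢ (univ.filter fun y : Fin a → W => y j = w.2) := by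
    ext u
    simp only [mem_filter, mem_univ, true_and, mem_product]
    constructor
    · rintro ⟨-, h2⟩
      exact ⟨congrArg Prod.fst h2, congrArg Prod.snd h2⟩
    · rintro ⟨h1, h2⟩
      refine ⟨?_, Prod.ext h1 h2⟩
      rw [h1, h2]
      exact hG
  rw [e, card_product, card_fix, card_fix, ← pow_add]
  congr 1
  omega

open Classical in
/-- **The combinatorial lemma.** -/
theorem comb (a k K : ℕ) (hka : k + 1 ≤ a) (hK : 1 ≤ K) (ε : ℝ) (hε : 0 < ε)
    (hβ : ε < 1 / ((a - 1).choose k : ℝ)) : ∃ n₀ : ℕ, ∃ δ : ℝ, 0 < δ ∧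
    ∀ (W : Type) [Fintype W] [DecidableEq W], n₀ ≤ Fintype.card W →
    ∀ (Bad : Finset W → Prop) (G : W → W → Prop),
      ((univ.filter fun u : W × W => G u.1 u.2).card : ℝ) < δ * (Fintype.card W : ℝ) ^ 2 →
      ((univ.filter fun t : Fin (k + 1) → W =>
        Function.Injective t ∧ ¬ Bad (univ.image t)).card : ℝ) <
        (1 / ((a - 1).choose k : ℝ) - ε) * (Fintype.card W : ℝ) ^ (k + 1) →
      ∃ A : Fin (a + a) → Finset W, (∀ i, (A i).card = K) ∧
        ∀ x : Fin (a + a) → W, (∀ i, x i ∈ A i) →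
        Function.Injective x ∧
        (∀ i j : Fin (a + a), (i : ℕ) < a → a ≤ (j : ℕ) → ¬ G (x i) (x j)) ∧
        ∀ S : Finset (Fin (a + a)), S.card = k + 1 →
          ((∀ g ∈ S, (g : ℕ) < a) ∨ (∀ g ∈ S, a ≤ (g : ℕ))) → Bad (S.image x) := by
  have hch : 0 < ((a - 1).choose k : ℝ) := by
    exact_mod_cast Nat.choose_pos (by omega)
  set β : ℝ := 1 / ((a - 1).choose k : ℝ) with hβd
  set x₀ : ℝ := β - ε / 2 with hx
  have hx0 : 0 ≤ x₀ := by rw [hx]; linarith
  have hx1 : ((a - 1).choose ((k + 1) - 1) : ℝ) * x₀ < 1 := by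
    simp only [Nat.add_sub_cancel]
    rw [hx, hβd, mul_sub, mul_one_div_cancel hch.ne']
    have : 0 < ((a - 1).choose k : ℝ) * (ε / 2) := by positivity
    linarith
  set y₀ : ℝ := 1 - ((a - 1).choose ((k + 1) - 1) : ℝ) * x₀ with hy
  have hy0 : 0 < y₀ := by rw [hy]; linarith
  set β₁ : ℝ := y₀ ^ (a + 1 - (k + 1)) with hβ₁
  have hβ₁0 : 0 < β₁ := by rw [hβ₁]; positivity
  have ha0 : (0 : ℝ) < a := by
    have : 0 < a := by omega
    exact_mod_cast this
  obtain ⟨n₀, hn₀⟩ := blowup K hK (a + a) (β₁ ^ 2 / 4) (by positivity)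
  set δ : ℝ := β₁ ^ 2 / (2 * (a : ℝ) ^ 2) with hδ
  obtain ⟨m₁, hm₁⟩ := exists_nat_ge (2 * ((k + 1 : ℕ) : ℝ) ^ 2 / ε)
  obtain ⟨m₂, hm₂⟩ := exists_nat_ge (4 * ((a + a : ℕ) : ℝ) ^ 2 / β₁ ^ 2)
  refine ⟨n₀ + m₁ + m₂ + (a + a) + (k + 1), δ, by positivity, ?_⟩
  intro W _ _ hW Bad G hG hT
  have hW0 : 0 < Fintype.card W := by omega
  set n : ℝ := (Fintype.card W : ℝ) with hn
  have hn0 : 0 < n := by rw [hn]; exact_mod_cast hW0
  have hWr : ((n₀ + m₁ + m₂ + (a + a) + (k + 1) : ℕ) : ℝ) ≤ n := by rw [hn]; exact_mod_cast hW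
  push_cast at hWr
  have hp1 : (0 : ℝ) ≤ n₀ := Nat.cast_nonneg _
  have hp2 : (0 : ℝ) ≤ m₁ := Nat.cast_nonneg _
  have hp3 : (0 : ℝ) ≤ m₂ := Nat.cast_nonneg _
  have hp4 : (0 : ℝ) ≤ k := Nat.cast_nonneg _
  have hnε : ((k + 1 : ℕ) : ℝ) ^ 2 / n ≤ ε / 2 := by
    have h1 : 2 * ((k + 1 : ℕ) : ℝ) ^ 2 / ε ≤ n := hm₁.trans (by linarith)
    rw [div_le_iff₀ hε] at h1
    rw [div_le_iff₀ hn0]
    linarith
  have hnβ : ((a + a : ℕ) : ℝ) ^ 2 / n ≤ β₁ ^ 2 / 4 := by
    have h1 : 4 * ((a + a : ℕ) : ℝ) ^ 2 / β₁ ^ 2 ≤ n := hm₂.trans (by linarith)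
    rw [div_le_iff₀ (by positivity)] at h1
    rw [div_le_iff₀ hn0]
    linarith
  set B : Finset (Finset W) := univ.filter fun I => I.card = k + 1 ∧ Bad I with hB
  -- the number of bad tuples
  have hcount : n ^ (k + 1) ≤ cnt B (k + 1) (k + 1) +
      ((univ.filter fun t : Fin (k + 1) → W =>
        Function.Injective t ∧ ¬ Bad (univ.image t)).card : ℝ) +
      ((univ.filter fun y : Fin (k + 1) → W => ¬ Function.Injective y).card : ℝ) := by
    have h1 : (univ : Finset (Fin (k + 1) → W)) ⊆
        (univ.filter fun u : Fin (k + 1) → W => Clq B (k + 1) u) ∪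
        (univ.filter fun t : Fin (k + 1) → W => Function.Injective t ∧ ¬ Bad (univ.image t)) ∪
        (univ.filter fun y : Fin (k + 1) → W => ¬ Function.Injective y) := by
      intro u _
      simp only [mem_union, mem_filter, mem_univ, true_and]
      by_cases hinj : Function.Injective u
      · left
        by_cases hp : Bad (univ.image u)
        · left
          intro I hI
          have hIu : I = univ := by
            rw [← card_eq_iff_eq_univ, hI, Fintype.card_fin]
          rw [hIu, hB, mem_filter]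
          refine ⟨mem_univ _, ?_, hp⟩
          rw [card_image_of_injective _ hinj, card_univ, Fintype.card_fin]
        · right
          exact ⟨hinj, hp⟩
      · right
        exact hinj
    have h2 := (card_le_card h1).trans ((card_union_le _ _).trans
      (Nat.add_le_add_right (card_union_le _ _) _))
    rw [card_univ, Fintype.card_fun, Fintype.card_fin] at h2
    rw [hn]
    unfold cnt
    exact_mod_cast h2
  have hnon := card_noninj W (k + 1) (by omega) hW0
  rw [← hn] at hnon
  have hbad : (1 - x₀) * n ^ (k + 1) ≤ cnt B (k + 1) (k + 1) := by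
    have h5 : ((k + 1 : ℕ) : ℝ) ^ 2 / n * n ^ (k + 1) ≤ ε / 2 * n ^ (k + 1) := by gcongr
    rw [hx]
    linarith
  obtain ⟨-, -, hdens⟩ := density (B := B) (r := k + 1) (T := a) (by omega) hW0 hx0 hx1 hbad a hka le_rfl
  -- pairs of cliques
  set E' : Finset ((Fin a → W) × (Fin a → W)) := univ.filter fun u =>
    (Clq B (k + 1) u.1 ∧ Clq B (k + 1) u.2) ∧ ∀ i j, ¬ G (u.1 i) (u.2 j) with hE'
  set g : ℕ := (univ.filter fun u : W × W => G u.1 u.2).card with hg
  have hpairs : (cnt B (k + 1) a) ^ 2 ≤ E'.card + a * a * (g * Fintype.card W ^ (2 * (a - 1))) := by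
    have h1 : ((univ.filter fun u : Fin a → W => Clq B (k + 1) u) ×ˢ
        (univ.filter fun u : Fin a → W => Clq B (k + 1) u)) ⊆
        E' ∪ (univ : Finset (Fin a × Fin a)).biUnion (fun ij =>
          univ.filter fun u : (Fin a → W) × (Fin a → W) => G (u.1 ij.1) (u.2 ij.2)) := by
      intro u hu
      obtain ⟨hu1, hu2⟩ := mem_product.1 hu
      rw [mem_union]
      by_cases hGu : ∀ i j, ¬ G (u.1 i) (u.2 j)
      · left
        rw [hE', mem_filter]
        exact ⟨mem_univ _, ⟨(mem_filter.1 hu1).2, (mem_filter.1 hu2).2⟩, hGu⟩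
      · right
        push Not at hGu
        obtain ⟨i, j, hij⟩ := hGu
        rw [mem_biUnion]
        exact ⟨(i, j), mem_univ _, mem_filter.2 ⟨mem_univ _, hij⟩⟩
    have h2 := (card_le_card h1).trans (card_union_le _ _)
    rw [card_product] at h2
    have h3 : ((univ : Finset (Fin a × Fin a)).biUnion (fun ij =>
        univ.filter fun u : (Fin a → W) × (Fin a → W) => G (u.1 ij.1) (u.2 ij.2))).card ≤
        a * a * (g * Fintype.card W ^ (2 * (a - 1))) := by
      refine card_biUnion_le.trans ?_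
      rw [sum_const_nat (m := g * Fintype.card W ^ (2 * (a - 1)))]
      · rw [card_univ, Fintype.card_prod, Fintype.card_fin]
      · intro ij _
        rw [card_rel]
    have e : (cnt B (k + 1) a) ^ 2 = (univ.filter fun u : Fin a → W => Clq B (k + 1) u).card *
        (univ.filter fun u : Fin a → W => Clq B (k + 1) u).card := by
      unfold cnt
      ring
    rw [e]
    exact h2.trans (Nat.add_le_add_left h3 _)
  set E : Finset (Fin (a + a) → W) := univ.filter fun x =>
    ((Clq B (k + 1) fun i : Fin a => x (Fin.castAdd a i)) ∧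
      (Clq B (k + 1) fun i : Fin a => x (Fin.natAdd a i))) ∧
      (∀ i j : Fin a, ¬ G (x (Fin.castAdd a i)) (x (Fin.natAdd a j))) ∧ Function.Injective x with hE
  have hE2 : E'.card ≤ E.card +
      (univ.filter fun y : Fin (a + a) → W => ¬ Function.Injective y).card := by
    have hφ : Function.Injective fun u : (Fin a → W) × (Fin a → W) =>
        (Fin.append u.1 u.2 : Fin (a + a) → W) := by
      intro u u' h
      have h' : (Fin.append u.1 u.2 : Fin (a + a) → W) = Fin.append u'.1 u'.2 := h
      refine Prod.ext ?_ ?_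
      · funext i
        have := congrFun h' (Fin.castAdd a i)
        rwa [Fin.append_left, Fin.append_left] at this
      · funext i
        have := congrFun h' (Fin.natAdd a i)
        rwa [Fin.append_right, Fin.append_right] at this
    rw [← card_image_of_injective E' hφ]
    refine (card_le_card ?_).trans (card_union_le _ _)
    intro x hx
    obtain ⟨u, hu, rfl⟩ := mem_image.1 hx
    rw [hE', mem_filter] at hu
    obtain ⟨-, ⟨h1, h2⟩, h3⟩ := hu
    rw [mem_union]
    by_cases hinj : Function.Injective (Fin.append u.1 u.2 : Fin (a + a) → W)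
    · left
      rw [hE, mem_filter]
      refine ⟨mem_univ _, ⟨?_, ?_⟩, ?_, hinj⟩
      · simpa only [Fin.append_left] using h1
      · simpa only [Fin.append_right] using h2
      · intro i j
        simp only [Fin.append_left, Fin.append_right]
        exact h3 i j
    · right
      exact mem_filter.2 ⟨mem_univ _, hinj⟩
  have hnon2 := card_noninj W (a + a) (by omega) hW0
  rw [← hn] at hnon2
  have hEcard : β₁ ^ 2 / 4 * n ^ (a + a) ≤ E.card := by
    have h1 : ((cnt B (k + 1) a : ℕ) : ℝ) ^ 2 ≤ E'.card + a * a * (g * n ^ (2 * (a - 1))) := by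
      rw [hn]; exact_mod_cast hpairs
    have h2 : (E'.card : ℝ) ≤ E.card +
        (univ.filter fun y : Fin (a + a) → W => ¬ Function.Injective y).card := by
      exact_mod_cast hE2
    have h3 : (β₁ * n ^ a) ^ 2 ≤ ((cnt B (k + 1) a : ℕ) : ℝ) ^ 2 := by
      apply pow_le_pow_left₀ (by positivity)
      exact hdens
    have h4 : (a : ℝ) * a * (g * n ^ (2 * (a - 1))) ≤ β₁ ^ 2 / 2 * n ^ (a + a) := by
      have h5 : (g : ℝ) * n ^ (2 * (a - 1)) ≤ δ * n ^ 2 * n ^ (2 * (a - 1)) := by
        apply mul_le_mul_of_nonneg_right hG.le (by positivity)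
      have h6 : n ^ 2 * n ^ (2 * (a - 1)) = n ^ (a + a) := by
        rw [← pow_add]; congr 1; omega
      calc (a : ℝ) * a * (g * n ^ (2 * (a - 1))) ≤ a * a * (δ * n ^ 2 * n ^ (2 * (a - 1))) := by
            gcongr
        _ = a * a * δ * n ^ (a + a) := by rw [← h6]; ring
        _ = β₁ ^ 2 / 2 * n ^ (a + a) := by
            rw [hδ]
            have : (a : ℝ) ≠ 0 := ha0.ne'
            field_simp
    have h7 : ((a + a : ℕ) : ℝ) ^ 2 / n * n ^ (a + a) ≤ β₁ ^ 2 / 4 * n ^ (a + a) := by gcongr
    have h8 : (β₁ * n ^ a) ^ 2 = β₁ ^ 2 * n ^ (a + a) := by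
      rw [pow_add]; ring
    have h9 : (0 : ℝ) ≤ n ^ (a + a) := by positivity
    nlinarith
  have hn1 : n₀ ≤ Fintype.card W := by omega
  obtain ⟨A, hA1, hA2⟩ := hn₀ W hn1 E hEcard
  refine ⟨A, hA1, fun x hxA => ?_⟩
  have hxE := hA2 x hxA
  rw [hE, mem_filter] at hxE
  obtain ⟨-, ⟨h1, h2⟩, h3, h4⟩ := hxE
  refine ⟨h4, ?_, ?_⟩
  · intro i j hi hj
    have e1 : i = Fin.castAdd a ⟨i, hi⟩ := Fin.ext rfl
    have e2 : j = Fin.natAdd a ⟨(j : ℕ) - a, by have := j.2; omega⟩ := by
      apply Fin.ext
      show (j : ℕ) = a + ((j : ℕ) - a)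
      omega
    rw [e1, e2]
    exact h3 _ _
  · intro S hS hside
    rcases hside with hside | hside
    · set I : Finset (Fin a) := univ.filter fun i => Fin.castAdd a i ∈ S with hI
      have hIS : I.image (Fin.castAdd a) = S := by
        ext s
        rw [mem_image]
        constructor
        · rintro ⟨i, hi, rfl⟩
          exact (mem_filter.1 hi).2
        · intro hs
          refine ⟨⟨s, hside s hs⟩, ?_, Fin.ext rfl⟩
          rw [hI, mem_filter]
          exact ⟨mem_univ _, by
            have : Fin.castAdd a ⟨(s : ℕ), hside s hs⟩ = s := Fin.ext rfl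
            rw [this]; exact hs⟩
      have hIc : I.card = k + 1 := by
        rw [← hS, ← hIS, card_image_of_injective _ (Fin.castAdd_injective a a)]
      have h5 := h1 I hIc
      rw [hB, mem_filter] at h5
      have h6 : I.image (fun i : Fin a => x (Fin.castAdd a i)) = S.image x := by
        rw [← hIS, image_image]
        rfl
      rw [← h6]
      exact h5.2.2
    · set I : Finset (Fin a) := univ.filter fun i => Fin.natAdd a i ∈ S with hI
      have hIS : I.image (Fin.natAdd a) = S := by
        ext s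
        rw [mem_image]
        constructor
        · rintro ⟨i, hi, rfl⟩
          exact (mem_filter.1 hi).2
        · intro hs
          have hs' := hside s hs
          have e2 : Fin.natAdd a (⟨(s : ℕ) - a, by have := s.2; omega⟩ : Fin a) = s := by
            apply Fin.ext
            show a + ((s : ℕ) - a) = s
            omega
          refine ⟨⟨(s : ℕ) - a, by have := s.2; omega⟩, ?_, e2⟩
          rw [hI, mem_filter]
          exact ⟨mem_univ _, by rw [e2]; exact hs⟩
      have hIc : I.card = k + 1 := by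
        rw [← hS, ← hIS, card_image_of_injective _ (Fin.natAdd_injective a a)]
      have h5 := h2 I hIc
      rw [hB, mem_filter] at h5
      have h6 : I.image (fun i : Fin a => x (Fin.natAdd a i)) = S.image x := by
        rw [← hIS, image_image]
        rfl
      rw [← h6]
      exact h5.2.2

end Pool.Agent.V11161.GT
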