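import Mathlib

set_option autoImplicit false

/-!
# Goldbach or prime tuples: the input from the uniform coloured theorem
-/

namespace Pool.Agent.V11161.GT

open Finset Filter Topology

open Classical in
/-- the uniform coloured theorem of `Pool.Agent.TH899.UG.Uni.exactU` with the constant `4 - c` -/
def ExU (c : ℝ) : Prop := ∀ T M : ℕ, 1 ≤ T → (4 - c) * M < T →
    ∃ K : ℕ, 1 ≤ K ∧ ∀ A : ℕ, ∀ η : ℝ, 0 < η → ∀ᶠ N : ℕ in atTop,
    ∀ a b : Fin T → Fin K → ℤ, (∀ g i, a g i ≠ 0) → (∀ g i, |a g i| ≤ A) →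
      (∀ g i, 5 * |b g i| ≤ 6 * (N : ℤ)) →
      (∀ g i, ∀ y : ℝ, (N : ℝ) / 16 ≤ y → y ≤ N / 2 → (N : ℝ) / 30 ≤ a g i * y + b g i) →
      Function.Injective (fun x : Fin T × Fin K => (a x.1 x.2, b x.1 x.2)) →
      (∀ p : ℕ, p.Prime → ∃ n : ℤ, ∀ g i, ¬ ((p : ℤ) ∣ a g i * n + b g i)) →
      ∃ (S : Finset (Fin T)) (σ : Fin T → Fin K), M + 1 ≤ S.card ∧
        (N : ℝ) ^ (1 - η) ≤ (((Icc 1 N).filter (fun n : ℕ =>
          ∀ g ∈ S, (a g (σ g) * n + b g (σ g)).toNat.Prime)).card : ℝ)

/-- the number of representations as a sum of two primes -/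
noncomputable def gol (m : ℕ) : ℕ := {p : ℕ | p.Prime ∧ ∃ q : ℕ, q.Prime ∧ p + q = m}.ncard

/-- the number of `n ≤ N` with all `n + v`, `v ∈ I` prime -/
noncomputable def tup (N : ℕ) (I : Finset ℕ) : ℕ := {n : ℕ | n ≤ N ∧ ∀ v ∈ I, (n + v).Prime}.ncard

/-- slope -/
def sl (a : ℕ) (g : Fin (a + a)) : ℤ := if (g : ℕ) < a then 1 else -1

/-- base constant -/
def bs (a N : ℕ) (g : Fin (a + a)) : ℤ := if (g : ℕ) < a then 0 else N

theorem toNat_eq {x : ℤ} (h : x.toNat.Prime) : ((x.toNat : ℕ) : ℤ) = x := by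
  apply Int.toNat_of_nonneg
  by_contra hcon
  rw [Int.toNat_of_nonpos (by omega)] at h
  exact Nat.not_prime_zero h

theorem sl_cases (a : ℕ) (g : Fin (a + a)) : sl a g = 1 ∨ sl a g = -1 := by
  unfold sl
  split_ifs
  · exact Or.inl rfl
  · exact Or.inr rfl

open Classical in
/-- **the input** -/
theorem core {c : ℝ} (hU : ExU c) (a k : ℕ) (ha : 1 ≤ a)
    (hak : (4 - c) * k < ((a + a : ℕ) : ℝ)) :
    ∃ K : ℕ, 1 ≤ K ∧ ∀ η : ℝ, 0 < η → ∀ᶠ N : ℕ in atTop, ∀ H : Fin (a + a) → Fin K → ℕ,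
      Function.Injective (fun x : Fin (a + a) × Fin K => H x.1 x.2) →
      (∀ g i, 60 * H g i ≤ N) →
      (∀ p : ℕ, p.Prime → p ≤ (a + a) * K → ∃ n : ℤ, ∀ (g : Fin (a + a)) (i : Fin K),
        ((g : ℕ) < a → ¬ ((p : ℤ) ∣ n + H g i)) ∧
        (a ≤ (g : ℕ) → ¬ ((p : ℤ) ∣ N - n + H g i))) →
      (∃ g g' : Fin (a + a), (g : ℕ) < a ∧ a ≤ (g' : ℕ) ∧ ∃ i i',
        (N : ℝ) ^ (1 - η) ≤ gol (N + H g i + H g' i')) ∨
      (∃ (S : Finset (Fin (a + a))) (σ : Fin (a + a) → Fin K), S.card = k + 1 ∧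
        ((∀ g ∈ S, (g : ℕ) < a) ∨ (∀ g ∈ S, a ≤ (g : ℕ))) ∧
        (N : ℝ) ^ (1 - η) ≤ tup N (S.image fun g => H g (σ g))) := by
  obtain ⟨K, hK, HU⟩ := hU (a + a) k (by omega) hak
  refine ⟨K, hK, fun η hη => ?_⟩
  filter_upwards [HU 1 η hη, eventually_ge_atTop 1] with N hN hN1
  intro H hinj h60 hloc
  have hslne : ∀ g, sl a g ≠ 0 := by
    intro g
    rcases sl_cases a g with h | h <;> rw [h] <;> decide
  obtain ⟨S, σ, hS, hcnt⟩ := hN (fun g _ => sl a g) (fun g i => bs a N g + H g i)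
    (fun g _ => hslne g)
    (fun g _ => by rcases sl_cases a g with h | h <;> rw [h] <;> simp)
    (fun g i => by
      have h2 := h60 g i
      show 5 * |bs a N g + H g i| ≤ 6 * (N : ℤ)
      unfold bs
      split_ifs
      · rw [zero_add, abs_of_nonneg (Nat.cast_nonneg _)]
        omega
      · rw [abs_of_nonneg (by positivity)]
        omega)
    (fun g i y h1 h2 => by
      have h3 : (0 : ℝ) ≤ (H g i : ℝ) := Nat.cast_nonneg _
      have h4 : (0 : ℝ) ≤ N := Nat.cast_nonneg _
      unfold sl bs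
      split_ifs
      · push_cast
        linarith
      · push_cast
        linarith)
    (by
      rintro ⟨g, i⟩ ⟨g', i'⟩ h
      have h0 : sl a g = sl a g' := congrArg Prod.fst h
      have h1 : bs a N g + H g i = bs a N g' + H g' i' := congrArg Prod.snd h
      have h2 : bs a N g = bs a N g' := by
        unfold sl at h0
        unfold bs
        split_ifs at h0 ⊢ <;> first | rfl | simp at h0
      apply hinj
      show H g i = H g' i'
      have h3 : ((H g i : ℕ) : ℤ) = H g' i' := by linarith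
      exact_mod_cast h3)
    (by
      intro p hp
      by_cases hpn : p ≤ (a + a) * K
      · obtain ⟨n, hn⟩ := hloc p hp hpn
        refine ⟨n, fun g i hd => ?_⟩
        obtain ⟨h1, h2⟩ := hn g i
        have hd' : (p : ℤ) ∣ sl a g * n + (bs a N g + H g i) := hd
        unfold sl bs at hd'
        split_ifs at hd' with hga
        · exact h1 hga (by
            have e : n + (H g i : ℤ) = 1 * n + (0 + H g i) := by ring
            rw [e]; exact hd')
        · exact h2 (not_lt.1 hga) (by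
            have e : (N : ℤ) - n + H g i = -1 * n + (N + H g i) := by ring
            rw [e]; exact hd')
      · have := Fact.mk hp
        let f : Fin (a + a) × Fin K → ZMod p := fun x =>
          - ((bs a N x.1 + H x.1 x.2 : ℤ) : ZMod p) / ((sl a x.1 : ℤ) : ZMod p)
        have hal : ∀ g, ((sl a g : ℤ) : ZMod p) ≠ 0 := by
          intro g
          rcases sl_cases a g with h | h <;> rw [h] <;> simp
        have hcard : (univ.image f).card < (univ : Finset (ZMod p)).card := by
          rw [card_univ, ZMod.card]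
          have h2 : (univ.image f).card ≤ (a + a) * K := by
            refine card_image_le.trans ?_
            rw [card_univ, Fintype.card_prod, Fintype.card_fin, Fintype.card_fin]
          omega
        obtain ⟨w, -, hw⟩ := Finset.exists_mem_notMem_of_card_lt_card hcard
        refine ⟨(w.val : ℤ), fun g i hd => hw (mem_image.2 ⟨(g, i), mem_univ _, ?_⟩)⟩
        rw [← ZMod.intCast_zmod_eq_zero_iff_dvd] at hd
        push_cast at hd
        rw [ZMod.natCast_zmod_val] at hd
        show - ((bs a N g + H g i : ℤ) : ZMod p) / ((sl a g : ℤ) : ZMod p) = w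
        rw [div_eq_iff (hal _)]
        push_cast
        linear_combination -hd)
  by_cases hmix : ∃ g ∈ S, ∃ g' ∈ S, (g : ℕ) < a ∧ a ≤ (g' : ℕ)
  · left
    obtain ⟨g, hg, g', hg', h1, h2⟩ := hmix
    refine ⟨g, g', h1, h2, σ g, σ g', hcnt.trans ?_⟩
    rw [Nat.cast_le]
    unfold gol
    rw [← Set.ncard_coe_finset]
    refine Set.ncard_le_ncard_of_injOn (fun n : ℕ => n + H g (σ g)) ?_ ?_ ?_
    · intro n hn
      obtain ⟨h3, h4⟩ := mem_filter.1 (mem_coe.1 hn)
      have h5 := h4 g hg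
      have h6 := h4 g' hg'
      have e1 : sl a g = 1 := by unfold sl; rw [if_pos h1]
      have e2 : bs a N g = 0 := by unfold bs; rw [if_pos h1]
      have e3 : sl a g' = -1 := by unfold sl; rw [if_neg (by omega)]
      have e4 : bs a N g' = N := by unfold bs; rw [if_neg (by omega)]
      rw [e1, e2] at h5
      rw [e3, e4] at h6
      have h7 := toNat_eq h6
      have e5 : (1 * (n : ℤ) + (0 + (H g (σ g) : ℤ))).toNat = n + H g (σ g) := by omega
      rw [e5] at h5
      refine ⟨h5, _, h6, ?_⟩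
      show n + H g (σ g) + (-1 * (n : ℤ) + (N + (H g' (σ g') : ℤ))).toNat =
        N + H g (σ g) + H g' (σ g')
      have h8 := (mem_Icc.1 h3).2
      omega
    · intro n _ n' _ hnn
      have h7 : n + H g (σ g) = n' + H g (σ g) := hnn
      omega
    · exact (Set.finite_Iic (N + H g (σ g) + H g' (σ g'))).subset (by
        rintro p ⟨-, q, -, hq⟩
        show p ≤ _
        omega)
  · right
    push Not at hmix
    obtain ⟨S', hS'S, hS'c⟩ := exists_subset_card_eq hS
    have hside : (∀ g ∈ S', (g : ℕ) < a) ∨ (∀ g ∈ S', a ≤ (g : ℕ)) := by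
      by_cases h : ∃ g ∈ S', (g : ℕ) < a
      · left
        obtain ⟨g, hg, hga⟩ := h
        intro g' hg'
        exact not_le.1 fun hcon => absurd (hmix g (hS'S hg) g' (hS'S hg') hga) (not_lt.2 hcon)
      · right
        push Not at h
        exact h
    refine ⟨S', σ, hS'c, hside, hcnt.trans ?_⟩
    rw [Nat.cast_le]
    unfold tup
    have hfin : {n : ℕ | n ≤ N ∧ ∀ v ∈ S'.image (fun g => H g (σ g)), (n + v).Prime}.Finite :=
      (Set.finite_Iic N).subset fun n hn => hn.1
    rw [← Set.ncard_coe_finset]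
    rcases hside with hside | hside
    · refine Set.ncard_le_ncard ?_ hfin
      intro n hn
      obtain ⟨h3, h4⟩ := mem_filter.1 (mem_coe.1 hn)
      refine ⟨(mem_Icc.1 h3).2, fun v hv => ?_⟩
      obtain ⟨g, hg, rfl⟩ := mem_image.1 hv
      have h5 := h4 g (hS'S hg)
      have e1 : sl a g = 1 := by unfold sl; rw [if_pos (hside g hg)]
      have e2 : bs a N g = 0 := by unfold bs; rw [if_pos (hside g hg)]
      rw [e1, e2] at h5
      have e5 : (1 * (n : ℤ) + (0 + (H g (σ g) : ℤ))).toNat = n + H g (σ g) := by omega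
      rwa [e5] at h5
    · refine Set.ncard_le_ncard_of_injOn (fun n : ℕ => N - n) ?_ ?_ hfin
      · intro n hn
        obtain ⟨h3, h4⟩ := mem_filter.1 (mem_coe.1 hn)
        have h8 := (mem_Icc.1 h3).2
        refine ⟨Nat.sub_le _ _, fun v hv => ?_⟩
        obtain ⟨g, hg, rfl⟩ := mem_image.1 hv
        have h5 := h4 g (hS'S hg)
        have hga := hside g hg
        have e1 : sl a g = -1 := by unfold sl; rw [if_neg (by omega)]
        have e2 : bs a N g = N := by unfold bs; rw [if_neg (by omega)]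
        rw [e1, e2] at h5
        have e5 : (-1 * (n : ℤ) + (N + (H g (σ g) : ℤ))).toNat = N - n + H g (σ g) := by omega
        rwa [e5] at h5
      · intro n hn n' hn' hnn
        have h8 := (mem_Icc.1 (mem_filter.1 (mem_coe.1 hn)).1).2
        have h9 := (mem_Icc.1 (mem_filter.1 (mem_coe.1 hn')).1).2
        have h7 : N - n = N - n' := hnn
        omega

end Pool.Agent.V11161.GT
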