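import Mathlib
import Pool.Agent.V11161.GT.Comb
import Pool.Agent.V11161.GT.Core

set_option autoImplicit false

/-!
# Goldbach or prime tuples: the main theorem, from the uniform coloured theorem
-/

namespace Pool.Agent.V11161.GT

open Finset Filter Topology

/-- a large set contains a large subset inside one residue class -/
theorem exists_class {W : Type} [DecidableEq W] (f : W → ℕ) {A : Finset W} {K Q : ℕ} (hQ : 0 < Q)
    (hA : A.card = Q * K) : ∃ (r : ℕ) (A' : Finset W), A' ⊆ A ∧ A'.card = K ∧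
      ∀ a ∈ A', f a ≡ r [MOD Q] := by
  obtain ⟨r, _, hr⟩ := exists_le_card_fiber_of_mul_le_card_of_maps_to
    (s := A) (t := range Q) (f := fun a => f a % Q) (n := K)
    (fun a _ => mem_range.2 (Nat.mod_lt _ hQ)) (nonempty_range_iff.2 hQ.ne')
    (by rw [card_range, hA])
  obtain ⟨A', h1, h2⟩ := exists_subset_card_eq hr
  refine ⟨r, A', h1.trans (filter_subset _ _), h2, fun a ha => ?_⟩
  have h3 := (mem_filter.1 (h1 ha)).2
  rw [← h3]
  exact (Nat.mod_modEq _ _).symm

open Classical in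
/-- **Goldbach near `N`, or many prime tuples at the scale `N`.** -/
theorem main {c : ℝ} (hU : ExU c) (a k : ℕ) (hka : k + 1 ≤ a)
    (hak : (4 - c) * k < ((a + a : ℕ) : ℝ)) (ε : ℝ) (hε : 0 < ε) :
    ∃ n₀ : ℕ, ∃ δ : ℝ, 0 < δ ∧ ∀ η : ℝ, 0 < η → ∀ᶠ N : ℕ in atTop, ∀ V : Finset ℕ,
      n₀ ≤ V.card → (∀ v ∈ V, 60 * v ≤ N) →
      (∀ p : ℕ, p.Prime → p ≤ a + a → ∃ n : ℤ, ∀ v ∈ V,
        ¬ ((p : ℤ) ∣ n + v) ∧ ¬ ((p : ℤ) ∣ N - n + v)) →
      δ * (V.card : ℝ) ^ 2 ≤
        (((V ×ˢ V).filter fun x => (N : ℝ) ^ (1 - η) ≤ gol (N + x.1 + x.2)).card : ℝ) ∨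
      (1 / ((a - 1).choose k : ℝ) - ε) * (V.card : ℝ) ^ (k + 1) ≤
        (((Fintype.piFinset fun _ : Fin (k + 1) => V).filter fun t => Function.Injective t ∧
          (N : ℝ) ^ (1 - η) ≤ tup N (univ.image t)).card : ℝ) := by
  rcases le_or_gt (1 / ((a - 1).choose k : ℝ)) ε with hle | hlt
  · refine ⟨0, 1, one_pos, fun η _ => Eventually.of_forall fun N V _ _ _ => Or.inr ?_⟩
    have : (1 / ((a - 1).choose k : ℝ) - ε) * (V.card : ℝ) ^ (k + 1) ≤ 0 :=
      mul_nonpos_of_nonpos_of_nonneg (by linarith) (by positivity)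
    exact this.trans (by positivity)
  obtain ⟨K, hK, hcore⟩ := core hU a k (by omega) hak
  set Q : ℕ := ((a + a) * K).factorial with hQ
  have hQ0 : 0 < Q := Nat.factorial_pos _
  obtain ⟨n₀, δ, hδ, hcomb⟩ := comb a k (Q * K) hka (Nat.mul_pos hQ0 hK) ε hε hlt
  refine ⟨n₀, δ, hδ, fun η hη => ?_⟩
  filter_upwards [hcore η hη] with N hN
  intro V hV h60 hloc
  by_contra hcon
  push Not at hcon
  obtain ⟨hG, hT⟩ := hcon
  have hWc : Fintype.card V = V.card := by simp
  obtain ⟨A, hA1, hA2⟩ := hcomb V (by rw [hWc]; exact hV)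
    (fun I => ¬ (N : ℝ) ^ (1 - η) ≤ tup N (I.image fun v : V => (v : ℕ)))
    (fun u v => (N : ℝ) ^ (1 - η) ≤ gol (N + (u : ℕ) + (v : ℕ)))
    (by
      rw [hWc]
      refine lt_of_le_of_lt ?_ hG
      rw [Nat.cast_le]
      refine card_le_card_of_injOn (fun u : V × V => ((u.1 : ℕ), (u.2 : ℕ))) ?_ ?_
      · intro u hu
        have h1 := (mem_filter.1 (mem_coe.1 hu)).2
        exact mem_coe.2 (mem_filter.2 ⟨mem_product.2 ⟨u.1.2, u.2.2⟩, h1⟩)
      · intro u _ v _ huv
        have h1 : (u.1 : ℕ) = v.1 := congrArg Prod.fst huv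
        have h2 : (u.2 : ℕ) = v.2 := congrArg Prod.snd huv
        exact Prod.ext (Subtype.ext h1) (Subtype.ext h2))
    (by
      rw [hWc]
      refine lt_of_le_of_lt ?_ hT
      rw [Nat.cast_le]
      refine card_le_card_of_injOn (fun t : Fin (k + 1) → V => fun i => (t i : ℕ)) ?_ ?_
      · intro t ht
        simp only [coe_filter, Set.mem_ofPred_eq, mem_univ, true_and] at ht
        obtain ⟨h1, h2⟩ := ht
        refine mem_coe.2 (mem_filter.2 ⟨Fintype.mem_piFinset.2 fun i => (t i).2,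
          fun i j hij => h1 (Subtype.ext hij), ?_⟩)
        have h3 := not_not.1 h2
        rw [image_image] at h3
        exact h3
      · intro t _ t' _ htt
        funext i
        exact Subtype.ext (congrFun htt i))
  have hne : ∀ g, ∃ v, v ∈ A g := fun g =>
    card_pos.1 (by rw [hA1 g]; exact Nat.mul_pos hQ0 hK)
  choose v₀ hv₀ using hne
  choose r A' hA'1 hA'2 hA'3 using fun g => exists_class (fun v : V => (v : ℕ)) hQ0 (hA1 g)
  set e : ∀ g, Fin K ≃ A' g := fun g => ((A' g).equivFinOfCardEq (hA'2 g)).symm with he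
  have heA : ∀ g i, (e g i : V) ∈ A g := fun g i => hA'1 g (e g i).2
  -- a transversal through two given elements
  have htr : ∀ (g g' : Fin (a + a)) (i i' : Fin K), g ≠ g' → ∃ x : Fin (a + a) → V,
      (∀ j, x j ∈ A j) ∧ x g = e g i ∧ x g' = e g' i' := by
    intro g g' i i' hgg
    refine ⟨fun j => if j = g then (e g i : V) else if j = g' then (e g' i' : V) else v₀ j,
      fun j => ?_, by simp, by simp [Ne.symm hgg]⟩
    by_cases h1 : j = g
    · subst h1
      simp only [if_true]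
      exact heA _ _
    · by_cases h2 : j = g'
      · subst h2
        simp only [h1, if_false, if_true]
        exact heA _ _
      · simp only [h1, h2, if_false]
        exact hv₀ j
  have q1 : Function.Injective (fun x : Fin (a + a) × Fin K => ((e x.1 x.2 : V) : ℕ)) := by
    rintro ⟨g, i⟩ ⟨g', i'⟩ hx
    have hx' : (e g i : V) = e g' i' := Subtype.ext hx
    have hgg : g = g' := by
      by_contra hgg
      obtain ⟨x, hx, h1, h2⟩ := htr g g' i i' hgg
      exact hgg ((hA2 x hx).1 (by rw [h1, h2, hx']))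
    subst hgg
    have : e g i = e g i' := Subtype.ext hx'
    rw [(e g).injective this]
  have q2 : ∀ g i, 60 * ((e g i : V) : ℕ) ≤ N := by
    intro g i
    exact h60 _ (e g i : V).2
  have q3 : ∀ p : ℕ, p.Prime → p ≤ (a + a) * K → ∃ n : ℤ, ∀ (g : Fin (a + a)) (i : Fin K),
      ((g : ℕ) < a → ¬ ((p : ℤ) ∣ n + ((e g i : V) : ℕ))) ∧
        (a ≤ (g : ℕ) → ¬ ((p : ℤ) ∣ N - n + ((e g i : V) : ℕ))) := by
    intro p hp hpK
    rcases le_or_gt p (a + a) with hpa | hpa
    · obtain ⟨n, hn⟩ := hloc p hp hpa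
      exact ⟨n, fun g i => ⟨fun _ => (hn _ (e g i : V).2).1, fun _ => (hn _ (e g i : V).2).2⟩⟩
    · have := Fact.mk hp
      have hpQ : p ∣ Q := Nat.dvd_factorial hp.pos hpK
      let f : Fin (a + a) → ZMod p := fun g =>
        if (g : ℕ) < a then - (r g : ZMod p) else ((N : ZMod p) + (r g : ZMod p))
      have hcard : (univ.image f).card < (univ : Finset (ZMod p)).card := by
        rw [card_univ, ZMod.card]
        have h2 : (univ.image f).card ≤ a + a := by
          refine card_image_le.trans ?_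
          rw [card_univ, Fintype.card_fin]
        omega
      obtain ⟨w, -, hw⟩ := Finset.exists_mem_notMem_of_card_lt_card hcard
      have hr : ∀ g i, ((((e g i : V) : ℕ)) : ZMod p) = (r g : ZMod p) := by
        intro g i
        rw [ZMod.natCast_eq_natCast_iff]
        exact (hA'3 g _ (e g i).2).of_dvd hpQ
      refine ⟨(w.val : ℤ), fun g i => ⟨fun hg hd => hw (mem_image.2 ⟨g, mem_univ _, ?_⟩),
        fun hg hd => hw (mem_image.2 ⟨g, mem_univ _, ?_⟩)⟩⟩
      · show (if (g : ℕ) < a then - (r g : ZMod p) else ((N : ZMod p) + (r g : ZMod p))) = w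
        rw [if_pos hg, ← hr g i]
        rw [← ZMod.intCast_zmod_eq_zero_iff_dvd] at hd
        push_cast at hd
        rw [ZMod.natCast_zmod_val] at hd
        linear_combination -hd
      · show (if (g : ℕ) < a then - (r g : ZMod p) else ((N : ZMod p) + (r g : ZMod p))) = w
        rw [if_neg (by omega), ← hr g i]
        rw [← ZMod.intCast_zmod_eq_zero_iff_dvd] at hd
        push_cast at hd
        rw [ZMod.natCast_zmod_val] at hd
        linear_combination hd
  rcases hN (fun g i => ((e g i : V) : ℕ)) q1 q2 q3 with h | h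
  · obtain ⟨g, g', hg, hg', i, i', h⟩ := h
    have hgg : g ≠ g' := by
      rintro rfl
      omega
    obtain ⟨x, hx, h1, h2⟩ := htr g g' i i' hgg
    refine (hA2 x hx).2.1 g g' hg hg' ?_
    rw [h1, h2]
    exact h
  · obtain ⟨S, σ, hS, hside, h⟩ := h
    refine (hA2 (fun g => (e g (σ g) : V)) fun g => heA g (σ g)).2.2 S hS hside ?_
    rw [image_image]
    exact h

end Pool.Agent.V11161.GT
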