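import Mathlib
import Pool.Agent.V11161.GT.Core
import Pool.Agent.W25.QL.Main
import Pool.Agent.W25.QL.Count

set_option autoImplicit false

/-!
# Prime tuples uniformly in the shifts
-/

namespace Pool.Agent.V11161.GT

open Finset Filter Topology
open Pool.Agent.W25.QL (Fails QProp main_gen count_pow count_pair)

theorem tup_anti {N : ℕ} {F F' : Finset ℕ} (h : F' ⊆ F) : tup N F ≤ tup N F' := by
  unfold tup
  apply Set.ncard_le_ncard
  · rintro n ⟨h1, h2⟩
    exact ⟨h1, fun f hf => h2 f (h hf)⟩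
  · exact (Set.finite_Iic N).subset fun n hn => hn.1

open Classical in
/-- **the input for shifts**, uniformly in the shifts up to `N` -/
theorem ucore {c : ℝ} (hc1 : c < 1) (hU : ExU c) (T : ℕ) :
    ∃ K : ℕ, 1 ≤ K ∧ (1 ≤ T → ∀ η : ℝ, 0 < η → ∀ᶠ N : ℕ in atTop, ∀ H : Fin T → Fin K → ℕ,
      Function.Injective (fun x : Fin T × Fin K => H x.1 x.2) →
      (∀ g i, H g i ≤ N) →
      (∀ p : ℕ, p.Prime → p ≤ T * K → ∃ r : ℕ, ∀ g i, ¬ H g i ≡ r [MOD p]) →
      ∃ (S : Finset (Fin T)) (σ : Fin T → Fin K), (T : ℝ) ≤ (4 - c) * (S.card : ℝ) ∧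
        (N : ℝ) ^ (1 - η) ≤ tup N (S.image fun g => H g (σ g))) := by
  rcases Nat.eq_zero_or_pos T with rfl | hT
  · exact ⟨1, le_rfl, fun h => absurd h (by norm_num)⟩
  have hlam : (0 : ℝ) < 4 - c := by linarith
  have hTr : (0 : ℝ) < T := by exact_mod_cast hT
  obtain ⟨M, hM⟩ : ∃ M : ℕ, M + 1 = ⌈(T : ℝ) / (4 - c)⌉₊ := by
    have : 0 < ⌈(T : ℝ) / (4 - c)⌉₊ := Nat.ceil_pos.2 (by positivity)
    exact ⟨⌈(T : ℝ) / (4 - c)⌉₊ - 1, by omega⟩
  have hMlt : (4 - c) * (M : ℝ) < T := by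
    have h1 : (M : ℝ) < (T : ℝ) / (4 - c) := by
      rw [← Nat.lt_ceil]
      omega
    rw [lt_div_iff₀ hlam] at h1
    linarith
  have hMge : (T : ℝ) ≤ (4 - c) * ((M + 1 : ℕ) : ℝ) := by
    have h1 : (T : ℝ) / (4 - c) ≤ ((M + 1 : ℕ) : ℝ) := by
      rw [hM]; exact Nat.le_ceil _
    rw [div_le_iff₀ hlam] at h1
    linarith
  obtain ⟨K, hK, HU⟩ := hU T M hT hMlt
  refine ⟨K, hK, fun _ η hη => ?_⟩
  filter_upwards [HU 1 η hη, eventually_ge_atTop 1] with N hN hN1
  intro H hinj hHN hloc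
  obtain ⟨S, σ, hS, hcnt⟩ := hN (fun _ _ => 1) (fun g i => (H g i : ℤ))
    (fun g _ => by norm_num)
    (fun g _ => by norm_num)
    (fun g i => by
      have h2 := hHN g i
      show 5 * |((H g i : ℕ) : ℤ)| ≤ 6 * (N : ℤ)
      rw [abs_of_nonneg (Nat.cast_nonneg _)]
      omega)
    (fun g i y h1 h2 => by
      have h3 : (0 : ℝ) ≤ (H g i : ℝ) := Nat.cast_nonneg _
      have h4 : (0 : ℝ) ≤ N := Nat.cast_nonneg _
      push_cast
      linarith)
    (by
      rintro ⟨g, i⟩ ⟨g', i'⟩ h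
      apply hinj
      show H g i = H g' i'
      have h3 : ((H g i : ℕ) : ℤ) = H g' i' := congrArg Prod.snd h
      exact_mod_cast h3)
    (by
      intro p hp
      obtain ⟨r, hr⟩ : ∃ r : ℕ, ∀ g i, ¬ H g i ≡ r [MOD p] := by
        by_cases hpn : p ≤ T * K
        · exact hloc p hp hpn
        · have h1 : ((univ : Finset (Fin T × Fin K)).image (fun x => H x.1 x.2 % p)).card <
              (range p).card := by
            rw [card_range]
            refine lt_of_le_of_lt card_image_le ?_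
            rw [card_univ, Fintype.card_prod, Fintype.card_fin, Fintype.card_fin]
            omega
          obtain ⟨r, hr1, hr2⟩ := Finset.exists_mem_notMem_of_card_lt_card h1
          refine ⟨r, fun g i hgi => hr2 ?_⟩
          rw [mem_image]
          refine ⟨(g, i), mem_univ _, ?_⟩
          have h4 : H g i % p = r % p := hgi
          rw [Nat.mod_eq_of_lt (mem_range.1 hr1)] at h4
          exact h4
      refine ⟨-(r : ℤ), fun g i hd => hr g i ?_⟩
      have h3 : (p : ℤ) ∣ ((H g i : ℕ) : ℤ) - r := by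
        have e : ((H g i : ℕ) : ℤ) - r = 1 * (-(r : ℤ)) + (H g i : ℕ) := by ring
        rw [e]; exact hd
      exact (Int.natCast_modEq_iff.1 (Int.modEq_iff_dvd.2 h3)).symm)
  refine ⟨S, σ, ?_, hcnt.trans ?_⟩
  · have h5 : ((M + 1 : ℕ) : ℝ) ≤ (S.card : ℝ) := by exact_mod_cast hS
    calc (T : ℝ) ≤ (4 - c) * ((M + 1 : ℕ) : ℝ) := hMge
      _ ≤ _ := mul_le_mul_of_nonneg_left h5 hlam.le
  · rw [Nat.cast_le]
    unfold tup
    have hfin : {n : ℕ | n ≤ N ∧ ∀ v ∈ S.image (fun g => H g (σ g)), (n + v).Prime}.Finite :=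
      (Set.finite_Iic N).subset fun n hn => hn.1
    rw [← Set.ncard_coe_finset]
    refine Set.ncard_le_ncard ?_ hfin
    intro n hn
    obtain ⟨h3, h4⟩ := mem_filter.1 (mem_coe.1 hn)
    refine ⟨(mem_Icc.1 h3).2, fun v hv => ?_⟩
    obtain ⟨g, hg, rfl⟩ := mem_image.1 hv
    have h5 := h4 g hg
    have e5 : (1 * (n : ℤ) + (H g (σ g) : ℤ)).toNat = n + H g (σ g) := by omega
    rwa [e5] at h5

/-- the proportion -/
noncomputable def dens (c : ℝ) (k : ℕ) : ℝ := if k = 1 then 1 / 3 else (1 / (4 - c)) ^ k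

open Classical in
/-- **prime tuples, uniformly in the shifts** -/
theorem unif {c : ℝ} (hc0 : 0 < c) (hc1 : c < 1) (hU : ExU c) (k : ℕ) (ε : ℝ) (hε : 0 < ε) :
    ∃ z n₀ : ℕ, ∀ η : ℝ, 0 < η → ∀ᶠ N : ℕ in atTop, ∀ V : Finset ℕ, n₀ ≤ V.card →
      (∀ v ∈ V, v ≤ N) →
      (∀ p : ℕ, p.Prime → p ≤ z → ∃ r : ℕ, ∀ v ∈ V, ¬ v ≡ r [MOD p]) →
      (dens c k - ε) * (V.card : ℝ) ^ (k + 1) ≤
        (((Fintype.piFinset fun _ : Fin (k + 1) => V).filter fun t => Function.Injective t ∧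
          (N : ℝ) ^ (1 - η) ≤ tup N (univ.image t)).card : ℝ) := by
  have hq := ucore hc1 hU
  choose Kf hKf1 hKf using hq
  have hdle : dens c k ≤ 1 := by
    unfold dens
    split_ifs
    · norm_num
    · apply pow_le_one₀
      · exact div_nonneg zero_le_one (by linarith)
      · rw [div_le_one (by linarith)]
        linarith
  obtain ⟨T, M, hT, hM⟩ := main_gen (lam := 4 - c) (by linarith) k (dens c k) hdle (by
    intro ε hε
    by_cases hk : k = 1
    · subst hk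
      unfold dens
      rw [if_pos rfl]
      exact count_pair (by linarith) (by linarith) ε hε
    · unfold dens
      rw [if_neg hk]
      exact count_pow (by linarith) k ε hε) ε hε Kf
  obtain ⟨n₀, hn₀⟩ := hM Unit
  refine ⟨∑ T' ∈ range (M + 1), T' * Kf T', n₀, fun η hη => ?_⟩
  have hev : ∀ᶠ N : ℕ in atTop, ∀ T' : Fin (M + 1), 1 ≤ (T' : ℕ) →
      ∀ H : Fin (T' : ℕ) → Fin (Kf T') → ℕ,
      Function.Injective (fun x : Fin (T' : ℕ) × Fin (Kf T') => H x.1 x.2) →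
      (∀ g i, H g i ≤ N) →
      (∀ p : ℕ, p.Prime → p ≤ (T' : ℕ) * Kf T' → ∃ r : ℕ, ∀ g i, ¬ H g i ≡ r [MOD p]) →
      ∃ (S : Finset (Fin (T' : ℕ))) (σ : Fin (T' : ℕ) → Fin (Kf T')),
        ((T' : ℕ) : ℝ) ≤ (4 - c) * (S.card : ℝ) ∧
        (N : ℝ) ^ (1 - η) ≤ tup N (S.image fun g => H g (σ g)) := by
    rw [eventually_all]
    intro T'
    by_cases h0 : 1 ≤ (T' : ℕ)
    swap
    · exact Eventually.of_forall fun x h => absurd h h0
    filter_upwards [hKf T' h0 η hη] with N hN _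
    exact hN
  filter_upwards [hev] with N hN
  intro V hVn hVN hVadm
  have key := hn₀ ℕ V (fun _ => ()) (fun F => (N : ℝ) ^ (1 - η) ≤ (tup N F : ℝ)) hVn
    (fun F F' hF h => h.trans (by exact_mod_cast tup_anti hF)) (by
      intro T' hT'1 hT'M H hHV hHinj _
      exact hN ⟨T', by omega⟩ hT'1 H hHinj (fun g i => hVN _ (hHV g i)) (by
        intro p hp hpT
        obtain ⟨r, hr⟩ := hVadm p hp (hpT.trans
          (Finset.single_le_sum (f := fun T' => T' * Kf T') (fun _ _ => Nat.zero_le _)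
            (mem_range.2 (by omega))))
        exact ⟨r, fun g i => hr _ (hHV g i)⟩))
  exact key

end Pool.Agent.V11161.GT
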